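import Pool.Agent.H.MP_a1eae6_lc.Defs
import Pool.Agent.Lib.helper25.CX2

namespace Pool.Agent.H.MP_a1eae6_lc

open Pool.Agent.Lib.CX Pool.Agent.Lib.CX2

variable {α : Type} [Enc α]

@[fun_prop] theorem pt_toks {f : α → Fm} (h : PT f) : PT fun a => (f a).toks := h.cast fun _ => rfl
theorem pt_of {f : α → Fm} (h : PT fun a => (f a).toks) : PT f := h.cast fun _ => rfl
@[fun_prop] theorem pt_var {n : α → ℕ} (h : PT n) : PT fun a => Fm.var (n a) := pt_of (by unfold Fm.toks; fun_prop)
@[fun_prop] theorem pt_not {f : α → Fm} (h : PT f) : PT fun a => Fm.not (f a) :=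
  pt_of (by simp only [Fm.toks]; fun_prop)
@[fun_prop] theorem pt_and {f g : α → Fm} (h : PT f) (h' : PT g) : PT fun a => Fm.and (f a) (g a) :=
  pt_of (by simp only [Fm.toks]; fun_prop)
@[fun_prop] theorem pt_or {f g : α → Fm} (h : PT f) (h' : PT g) : PT fun a => Fm.or (f a) (g a) :=
  pt_of (by simp only [Fm.toks]; fun_prop)

def conj (l : List Fm) (d : Fm) : Fm := l.foldr Fm.and d

theorem toks_conj (l d) : (conj l d).toks = l.flatMap (fun f => 1 :: f.toks) ++ d.toks := by
  induction l with
  | nil => rfl
  | cons f l ih => simp [conj, Fm.toks] at ih ⊢; exact ih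

@[fun_prop] theorem pt_conj {l : α → List Fm} {d : α → Fm} (h : PT l) (h' : PT d) : PT fun a => conj (l a) (d a) :=
  pt_of (by simp only [toks_conj]; fun_prop)

theorem eval_conj (v l d) : (conj l d).eval v = true ↔ (∀ f ∈ l, f.eval v = true) ∧ d.eval v = true := by
  induction l with
  | nil => simp [conj]
  | cons f l ih => simp [conj, Fm.eval, and_assoc] at ih ⊢; simp [ih]

theorem vars_conj (x l d) : x ∈ (conj l d).vars ↔ (∃ f ∈ l, x ∈ f.vars) ∨ x ∈ d.vars := by
  induction l with
  | nil => simp [conj]
  | cons f l ih => simp [conj, Fm.vars, or_assoc] at ih ⊢; simp [ih]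

theorem eval_rename (v π) (f : Fm) : (f.rename π).eval v = f.eval fun x => v (π x) := by
  induction f <;> simp_all [Fm.rename, Fm.eval]

theorem eval_congr {v w : ℕ → Bool} (f : Fm) (h : ∀ x ∈ f.vars, v x = w x) : f.eval v = f.eval w := by
  induction f with
  | var n => exact h n (by simp [Fm.vars])
  | not f ih => simp [Fm.eval, ih h]
  | and f g ih ih' =>
    simp only [Fm.vars, List.forall_mem_append] at h
    simp [Fm.eval, ih h.1, ih' h.2]
  | or f g ih ih' =>
    simp only [Fm.vars, List.forall_mem_append] at h
    simp [Fm.eval, ih h.1, ih' h.2]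

theorem vars_eq (f : Fm) : f.vars = (f.toks.filter (3 ≤ ·)).map (· - 3) := by
  induction f <;> simp_all [Fm.vars, Fm.toks]

@[fun_prop] theorem pt_vars {f : α → Fm} (h : PT f) : PT fun a => (f a).vars := by
  simp only [vars_eq]; fun_prop

def stp (d : List ℕ) (s : List Bool) (t : ℕ) : List Bool :=
  if t = 0 then (!s.headD false) :: s.tail else if t = 1 then (s.headD false && s.tail.headD false) :: s.tail.tail
  else if t = 2 then (s.headD false || s.tail.headD false) :: s.tail.tail else decide (t - 3 ∈ d) :: s

def evL (d : List ℕ) (f : Fm) : Bool := f.eval fun x => decide (x ∈ d)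

theorem fold_stp (d) (f : Fm) : ∀ s, f.toks.reverse.foldl (stp d) s = evL d f :: s := by
  induction f <;> simp_all [Fm.toks, stp, evL, Fm.eval]

@[fun_prop] theorem pt_evL {d : α → List ℕ} {f : α → Fm} (hd : PT d) (h : PT f) : PT fun a => evL (d a) (f a) :=
  ((PT.foldl_add (F := fun a => stp (d a)) (i := fun _ => []) (l := fun a => (f a).toks.reverse) (D := fun _ => 3)
    (by unfold stp; fun_prop) (by fun_prop) (by fun_prop) (by fun_prop) fun a s x _ => by
      have h1 := size_sublist (List.tail_sublist s)
      have h2 := size_sublist (List.tail_sublist s.tail)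
      unfold stp
      split_ifs <;> simp only [size_cons, size_bool] <;> omega).headD (PT.const false)).congr fun a => by
    rw [fold_stp]; rfl

theorem mem_sig2 : InSig2 IsoImp := by
  refine InSig2.of_cert (γ := List ℕ) (δ := List ℕ)
    (fun a c d => (∀ x ∈ a.1.vars ++ a.2.vars, c.getD ((a.1.vars ++ a.2.vars).idxOf x) 0 ∈ a.1.vars ++ a.2.vars) ∧
      (∀ x ∈ a.1.vars ++ a.2.vars, ∀ y ∈ a.1.vars ++ a.2.vars, c.getD ((a.1.vars ++ a.2.vars).idxOf x) 0 =
        c.getD ((a.1.vars ++ a.2.vars).idxOf y) 0 → x = y) ∧
      (evL (a.1.vars.filter fun x => c.getD ((a.1.vars ++ a.2.vars).idxOf x) 0 ∈ d) a.1 = true → evL d a.2 = true))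
    (i := fun _ _ _ => inferInstance)
    (fun a => (a.1.vars ++ a.2.vars).length * (size (a.1.vars ++ a.2.vars) + 1) + 2 + size (a.1.vars ++ a.2.vars))
    (by fun_prop) (by fun_prop) ?_ ?_
  · rintro ⟨f, g⟩ c H
    simp only at H
    set X := f.vars ++ g.vars with hX
    obtain ⟨h1, h2, -⟩ := H [] (by simp; omega)
    let p : ℕ → ℕ := fun x => if x ∈ X then c.getD (X.idxOf x) 0 else x
    have hb : Set.BijOn p {x | x ∈ X} {x | x ∈ X} :=
      ((List.finite_toSet X).injOn_iff_bijOn_of_mapsTo fun x hx => by
        have hx' : x ∈ X := hx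
        simpa only [p, hx', if_true, Set.mem_setOf_eq] using h1 x hx).1 fun x hx y hy e => by
        have hx' : x ∈ X := hx
        have hy' : y ∈ X := hy
        exact h2 x hx y hy (by simpa only [p, hx', hy', if_true] using e)
    have hp : Function.Bijective p := by
      constructor
      · intro x y e
        by_cases hx : x ∈ X <;> by_cases hy : y ∈ X
        · exact hb.injOn hx hy e
        · have := hb.mapsTo hx; rw [e] at this; simp only [p, hy, if_false] at this; exact absurd this hy
        · have := hb.mapsTo hy; rw [← e] at this; simp only [p, hx, if_false] at this; exact absurd this hx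
        · simpa only [p, hx, hy, if_false] using e
      · intro y
        by_cases hy : y ∈ X
        · obtain ⟨x, -, e⟩ := hb.surjOn hy; exact ⟨x, e⟩
        · exact ⟨y, by simp only [p, hy, if_false]⟩
    refine ⟨Equiv.ofBijective p hp, fun x a b => by simp [p, hX, a, b], fun v hv => ?_⟩
    obtain ⟨-, -, h3⟩ := H (X.filter v) (by have := size_sublist (List.filter_sublist (p := v) (l := X)); omega)
    rw [eval_rename] at hv
    rw [← h3 ?_]
    · exact eval_congr _ fun x hx => by simp [hX, hx]
    · rw [← hv]
      refine eval_congr _ fun x hx => ?_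
      have hx' : x ∈ X := by simp [hX, hx]
      have := h1 x hx'
      simp only [List.mem_filter, hx, this, true_and, Equiv.ofBijective_apply, p, hx', if_true]
      simp
  · rintro ⟨f, g⟩ ⟨π, h1, h2⟩
    simp only at h1 h2 ⊢
    set X := f.vars ++ g.vars with hX
    have m : ∀ x ∈ X, π x ∈ X := fun x hx => by
      by_contra h
      have := h1 (π x) (fun e => h (by simp [hX, e])) (fun e => h (by simp [hX, e]))
      exact h (by rwa [π.injective this])
    have e : ∀ x ∈ X, (X.map π).getD (X.idxOf x) 0 = π x := fun x hx => by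
      simp [List.getD_eq_getElem?_getD, List.getElem?_idxOf hx]
    refine ⟨X.map π, ?_, fun d => ⟨fun x hx => e x hx ▸ m x hx, fun x hx y hy h => ?_, fun h => h2 _ ?_⟩⟩
    · have := size_list_le (l := X.map π) (B := size X) (List.forall_mem_map.2 fun x hx => size_mem (m x hx))
      simp only [List.length_map] at this; omega
    · rw [e x hx, e y hy] at h; exact π.injective h
    · rw [eval_rename, ← h]
      refine eval_congr _ fun x hx => ?_
      have hx' : x ∈ X := by simp [hX, hx]
      simp only [List.mem_filter, hx, true_and, e x hx']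
      simp

def lit (l : ℕ × Bool) : Fm := if l.2 = true then .var l.1 else .not (.var l.1)

theorem eval_lit (v l) : (lit l).eval v = true ↔ v l.1 = l.2 := by
  obtain ⟨x, _ | _⟩ := l <;> simp [lit, Fm.eval]

def top : Fm := .or (.var 0) (.not (.var 0))

theorem eval_top (v) : top.eval v = true := by simp [top, Fm.eval]

def red (a : List Unit × List (Cl3 ℕ)) : Fm × Fm :=
  (conj ((List.range a.1.length).map fun i => .and (.var i) (.not (.var (a.1.length + 3 * a.2.length + i)))) top,
   conj ((List.range a.1.length).map fun i => .and (.or (.var i) (.var (a.1.length + 3 * a.2.length + i)))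
      (.or (.not (.var i)) (.not (.var (a.1.length + 3 * a.2.length + i)))))
    (.not (conj (a.2.map fun C => .or (lit C.1) (.or (lit C.2.1) (lit C.2.2))) top)))

theorem ev1 (v n φ) : (red (n, φ)).1.eval v = true ↔
    ∀ i < n.length, v i = true ∧ v (n.length + 3 * φ.length + i) = false := by
  simp [red, eval_conj, eval_top, Fm.eval]

theorem ev2 (v n φ) : (red (n, φ)).2.eval v = true ↔
    (∀ i < n.length, v i ≠ v (n.length + 3 * φ.length + i)) ∧ ¬∀ C ∈ φ, C.ok v := by
  simp only [red, eval_conj, Fm.eval, List.forall_mem_map, List.mem_range, Bool.not_eq_true', ← Bool.not_eq_true,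
    eval_top, and_true, Bool.or_eq_true, eval_lit, Cl3.ok]
  refine and_congr (forall₂_congr fun i _ => ?_) Iff.rfl
  cases v i <;> cases v (n.length + 3 * φ.length + i) <;> simp

theorem hard : Sig2Hard IsoImp := by
  refine Sig2Hard.of_q3 red (by unfold red lit; fun_prop) fun n φ hv => ?_
  simp only [Q3, IsoImp, eval_rename, ev1, ev2, not_forall (α := ℕ → Bool), not_exists, not_and]
  have hv1 : ∀ i < n.length, i ∈ (red (n, φ)).1.vars ∧ n.length + 3 * φ.length + i ∈ (red (n, φ)).1.vars :=
    fun i hi => ⟨(vars_conj _ _ _).2 (.inl ⟨_, List.mem_map_of_mem (List.mem_range.2 hi), by simp [Fm.vars]⟩),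
      (vars_conj _ _ _).2 (.inl ⟨_, List.mem_map_of_mem (List.mem_range.2 hi), by simp [Fm.vars]⟩)⟩
  generalize (red (n, φ)).1.vars = X at *
  generalize (red (n, φ)).2.vars = Y at *
  have hN : n.length ≤ n.length + 3 * φ.length := by omega
  generalize n.length + 3 * φ.length = N at *
  generalize n.length = n at *
  constructor
  · rintro ⟨x, hx⟩
    let p : ℕ → ℕ := fun j => if j < n ∧ x j = false then N + j else
      if N ≤ j ∧ j < N + n ∧ x (j - N) = false then j - N else j
    have p1 : ∀ i < n, p i = if x i = true then i else N + i := fun i hi => by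
      have : ¬N ≤ i := by omega
      cases h : x i <;> simp [p, hi, h, this]
    have p2 : ∀ i < n, p (N + i) = if x i = true then N + i else i := fun i hi => by
      have : ¬N + i < n := by omega
      cases h : x i <;> simp [p, hi, h, this]
    have p3 : ∀ j, ¬j < n → ¬(N ≤ j ∧ j < N + n) → p j = j := fun j a b => by
      have : ¬(N ≤ j ∧ j < N + n ∧ x (j - N) = false) := fun h => b ⟨h.1, h.2.1⟩
      simp only [p, a, false_and, if_false, this]
    have hp : Function.Involutive p := fun j => by
      by_cases a : j < n
      · rw [p1 j a]; cases h : x j <;> simp [p1 j a, p2 j a, h]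
      · by_cases b : N ≤ j ∧ j < N + n
        · obtain ⟨i, rfl⟩ := Nat.exists_eq_add_of_le b.1
          have a : i < n := by omega
          rw [p2 i a]; cases h : x i <;> simp [p1 i a, p2 i a, h]
        · rw [p3 j a b, p3 j a b]
    refine ⟨hp.toPerm, fun j a _ => p3 j (fun h => a (hv1 j h).1) fun b => ?_, fun v h => ?_⟩
    · obtain ⟨i, rfl⟩ := Nat.exists_eq_add_of_le b.1
      exact a (hv1 i (by omega)).2
    · have : ∀ i < n, v i = x i ∧ v (N + i) = !x i := fun i hi => by
        have := h i hi
        simp only [Function.Involutive.coe_toPerm, p1 i hi, p2 i hi] at this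
        cases e : x i <;> simp_all
      exact ⟨fun i hi => by simp [this i hi], hx v fun i hi => (this i hi).1⟩
  · rintro ⟨π, -, H⟩
    classical
    let T := (Finset.range n).image π
    let F := (Finset.range n).image fun i => π (N + i)
    have dj : ∀ j ∈ F, j ∉ T := fun j a b => by
      simp only [T, F, Finset.mem_image, Finset.mem_range] at a b
      obtain ⟨i, hi, rfl⟩ := a
      obtain ⟨k, hk, e⟩ := b
      have := π.injective e
      omega
    have G : ∀ v : ℕ → Bool, (∀ j ∈ T, v j = true) → (∀ j ∈ F, v j = false) →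
        (∀ i < n, v i ≠ v (N + i)) ∧ ¬∀ C ∈ φ, C.ok v := fun v a b => H v fun i hi =>
      ⟨a _ (Finset.mem_image_of_mem _ (Finset.mem_range.2 hi)), b _ (Finset.mem_image_of_mem _ (Finset.mem_range.2 hi))⟩
    have a1 := (G (fun j => decide (j ∈ T)) (by simp) fun j hj => by simp [dj j hj]).1
    have a2 := (G (fun j => decide (j ∉ F)) (fun j hj => by simpa using fun h => dj j h hj) (by simp)).1
    have sub : Finset.range n ∪ (Finset.range n).image (N + ·) ⊆ T ∪ F := fun j hj => by
      have : ∀ i < n, i ∈ T ∪ F ∧ N + i ∈ T ∪ F := fun i hi => by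
        have b1 := a1 i hi
        have b2 := a2 i hi
        have b3 := dj i
        have b4 := dj (N + i)
        simp only [ne_eq, decide_eq_decide, Finset.mem_union] at b1 b2 ⊢
        tauto
      simp only [Finset.mem_union, Finset.mem_range, Finset.mem_image] at hj
      rcases hj with h | ⟨i, hi, rfl⟩
      · exact (this j h).1
      · exact (this i hi).2
    have eq := Finset.eq_of_subset_of_card_le sub (by
      rw [Finset.card_union_of_disjoint (s := Finset.range n) (by
        simp only [Finset.disjoint_left, Finset.mem_range, Finset.mem_image]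
        rintro j hj ⟨i, -, rfl⟩; omega), Finset.card_image_of_injective _ (add_right_injective N)]
      exact (Finset.card_union_le _ _).trans (add_le_add Finset.card_image_le Finset.card_image_le))
    have lt : ∀ j ∈ T ∪ F, j < N → j < n := fun j hj h => by
      rw [← eq] at hj
      simp only [Finset.mem_union, Finset.mem_range, Finset.mem_image] at hj
      rcases hj with h | ⟨i, hi, rfl⟩ <;> omega
    refine ⟨fun j => decide (j ∈ T), fun v h1 h2 => ?_⟩
    refine (G (fun j => if j < N then v j else decide (j ∈ T)) (fun j hj => ?_) fun j hj => ?_).2 fun C hC => ?_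
    · split
      · rw [h1 j (lt j (Finset.mem_union_left _ hj) ‹_›)]; simpa using hj
      · simpa using hj
    · split
      · rw [h1 j (lt j (Finset.mem_union_right _ hj) ‹_›)]; simpa using dj j hj
      · simpa using dj j hj
    · have := hv C hC
      simp only [Cl3.vars, List.forall_mem_cons] at this
      simpa only [Cl3.ok, this, if_true] using h2 C hC

end Pool.Agent.H.MP_a1eae6_lc
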