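import Pool.Agent.Lib.helper25.CX2Defs

namespace Pool.Agent.H.MP_a1eae6_lc

open Pool.Agent.Lib.CX

/-- Boolean formulas over the variables `0, 1, 2, …` -/
inductive Fm
  | var (n : ℕ)
  | not (f : Fm)
  | and (f g : Fm)
  | or (f g : Fm)

/-- truth value under an assignment -/
def Fm.eval (v : ℕ → Bool) : Fm → Bool
  | var n => v n
  | not f => !f.eval v
  | and f g => f.eval v && g.eval v
  | or f g => f.eval v || g.eval v

/-- the variables occurring in a formula -/
def Fm.vars : Fm → List ℕ
  | var n => [n]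
  | not f => f.vars
  | and f g => f.vars ++ g.vars
  | or f g => f.vars ++ g.vars

/-- simultaneous renaming of the variables -/
def Fm.rename (π : ℕ → ℕ) : Fm → Fm
  | var n => var (π n)
  | not f => not (f.rename π)
  | and f g => and (f.rename π) (g.rename π)
  | or f g => or (f.rename π) (g.rename π)

/-- the symbols of a formula in Polish order -/
def Fm.toks : Fm → List ℕ
  | var n => [n + 3]
  | not f => 0 :: f.toks
  | and f g => 1 :: (f.toks ++ g.toks)
  | or f g => 2 :: (f.toks ++ g.toks)

theorem Fm.toks_append (f : Fm) : ∀ (g : Fm) (x y : List ℕ), f.toks ++ x = g.toks ++ y → f = g ∧ x = y := by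
  induction f with
  | var n => intro g x y h; cases g <;> simp_all [toks]
  | not f ih =>
    intro g x y h
    cases g <;> simp [toks] at h
    obtain ⟨rfl, rfl⟩ := ih _ _ _ h
    exact ⟨rfl, rfl⟩
  | and f f' ih ih' =>
    intro g x y h
    cases g <;> simp [toks] at h
    obtain ⟨rfl, h2⟩ := ih _ _ _ h
    obtain ⟨rfl, rfl⟩ := ih' _ _ _ h2
    exact ⟨rfl, rfl⟩
  | or f f' ih ih' =>
    intro g x y h
    cases g <;> simp [toks] at h
    obtain ⟨rfl, h2⟩ := ih _ _ _ h
    obtain ⟨rfl, rfl⟩ := ih' _ _ _ h2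
    exact ⟨rfl, rfl⟩

/-- a formula is encoded as its list of symbols -/
instance : Enc Fm := ⟨fun f => Enc.tr f.toks, fun f g h =>
  (Fm.toks_append f g [] [] (by rw [Enc.inj h])).1⟩

/-- some permutation of the variables occurring in the two formulas makes the first imply the second -/
def IsoImp (a : Fm × Fm) : Prop :=
  ∃ π : Equiv.Perm ℕ, (∀ x, x ∉ a.1.vars → x ∉ a.2.vars → π x = x) ∧
    ∀ v : ℕ → Bool, (a.1.rename π).eval v = true → a.2.eval v = true

end Pool.Agent.H.MP_a1eae6_lc
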